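import Mathlib

/-!
# Beams observed along several integer-speed lines: the inverse inequality fails

For all integers `a_1, ..., a_m` (any number of them, distinct or not), every `T > 0` and all
observation segments `(t_i + τ, x_i - a_i τ)`, `0 ≤ τ ≤ T`, lying on lines through one common point
`(s, y)` of the `(t,x)`-plane (for instance `(t_i, x_i) = (0, 0)` for all `i`), the inverse inequality
fails. The counterexample is
`u(t,x) = ∑_{1 ≤ k ≤ N} exp(ik²(t-s)) (exp(ik(x-y)) - exp(-ik(x-y)))`: on the line with speed `a` it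
is bounded by `2|a|`, because the frequencies `k² - ak` and `(a-k)² - a(a-k)` are equal, and the sum
of the squares of its coefficients is `2N`.
-/

set_option autoImplicit false

namespace Pool.Agent.Results.MP_8d8cf3_an.IntegerSpeedsFail

open MeasureTheory Set Complex

/-- The solution
`u(t,x) = c_0^+ + c_0^- t + ∑_{k ≠ 0} (c_k^+ exp(ik²t) + c_k^- exp(-ik²t)) exp(ikx)` of the beam
equation (used below only for coefficient sequences with finitely many nonzero terms). -/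
noncomputable def beam (cp cm : ℤ → ℂ) (t x : ℝ) : ℂ :=
  cp 0 + cm 0 * t + ∑' k : ℤ, if k = 0 then 0 else
    (cp k * cexp (I * ((k : ℝ) ^ 2 * t : ℝ)) + cm k * cexp (-(I * ((k : ℝ) ^ 2 * t : ℝ)))) *
      cexp (I * ((k : ℝ) * x : ℝ))

/-- the coefficients of the counterexample -/
noncomputable def co (N : ℕ) (s y : ℝ) (k : ℤ) : ℂ :=
  if k ∈ Finset.Ioc (0 : ℤ) N then cexp (-(I * ((k : ℝ) ^ 2 * s + k * y : ℝ)))
  else if k ∈ Finset.Ico (-(N : ℤ)) 0 then -cexp (-(I * ((k : ℝ) ^ 2 * s + k * y : ℝ))) else 0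

lemma norm_e (r : ℝ) : ‖cexp (I * (r : ℂ))‖ = 1 := by
  rw [mul_comm, Complex.norm_exp_ofReal_mul_I]

lemma norm_e' (r : ℝ) : ‖cexp (-(I * (r : ℂ)))‖ = 1 := by
  have : -(I * (r : ℂ)) = I * ((-r : ℝ) : ℂ) := by push_cast; ring
  rw [this, norm_e]

lemma disj (N : ℕ) : Disjoint (Finset.Ioc (0 : ℤ) N) (Finset.Ico (-(N : ℤ)) 0) := by
  rw [Finset.disjoint_left]
  intro k h1 h2
  rw [Finset.mem_Ioc] at h1
  rw [Finset.mem_Ico] at h2
  omega

/-- the phases on the line -/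
noncomputable def g (a : ℤ) (r : ℝ) (k : ℤ) : ℂ := cexp (I * (((k : ℝ) ^ 2 - a * k) * r : ℝ))

lemma g_refl (a : ℤ) (r : ℝ) (k : ℤ) : g a r (a - k) = g a r k := by
  unfold g
  congr 3
  push_cast
  ring

lemma g_norm (a : ℤ) (r : ℝ) (k : ℤ) : ‖g a r k‖ = 1 := norm_e _

lemma sum_refl (a : ℤ) (r : ℝ) (N : ℕ) :
    ∑ k ∈ Finset.Ico (-(N : ℤ)) 0, g a r k = ∑ k ∈ Finset.Ioc a (a + N), g a r k := by
  apply Finset.sum_bij (fun k _ => a - k)
  · intro k hk
    rw [Finset.mem_Ico] at hk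
    rw [Finset.mem_Ioc]
    omega
  · intro k _ l _ h
    omega
  · intro l hl
    rw [Finset.mem_Ioc] at hl
    refine ⟨a - l, ?_, by omega⟩
    rw [Finset.mem_Ico]
    omega
  · intro k _
    exact (g_refl a r k).symm

lemma shift_bound (a : ℤ) (r : ℝ) (N : ℕ) :
    ‖∑ k ∈ Finset.Ioc (0 : ℤ) N, g a r k - ∑ k ∈ Finset.Ioc a (a + N), g a r k‖ ≤ 2 * |(a : ℝ)| := by
  rw [← Finset.sum_sdiff_sub_sum_sdiff]
  have h1 : ((Finset.Ioc (0 : ℤ) N \ Finset.Ioc a (a + N)).card : ℝ) ≤ |(a : ℝ)| := by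
    have hs : Finset.Ioc (0 : ℤ) N \ Finset.Ioc a (a + N) ⊆
        Finset.Ioc (0 : ℤ) a ∪ Finset.Ioc ((N : ℤ) + a) N := by
      intro k hk
      rw [Finset.mem_sdiff, Finset.mem_Ioc, Finset.mem_Ioc] at hk
      rw [Finset.mem_union, Finset.mem_Ioc, Finset.mem_Ioc]
      omega
    have h2 := (Finset.card_le_card hs).trans (Finset.card_union_le _ _)
    rw [Int.card_Ioc, Int.card_Ioc] at h2
    have h3 : (Finset.Ioc (0 : ℤ) N \ Finset.Ioc a (a + N)).card ≤ a.natAbs := by omega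
    have h4 : ((a.natAbs : ℕ) : ℝ) = |(a : ℝ)| := by
      rw [Nat.cast_natAbs, Int.cast_abs]
    rw [← h4]
    exact_mod_cast h3
  have h1' : ((Finset.Ioc a (a + N) \ Finset.Ioc (0 : ℤ) N).card : ℝ) ≤ |(a : ℝ)| := by
    have hs : Finset.Ioc a (a + N) \ Finset.Ioc (0 : ℤ) N ⊆
        Finset.Ioc (a : ℤ) 0 ∪ Finset.Ioc (N : ℤ) (a + N) := by
      intro k hk
      rw [Finset.mem_sdiff, Finset.mem_Ioc, Finset.mem_Ioc] at hk
      rw [Finset.mem_union, Finset.mem_Ioc, Finset.mem_Ioc]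
      omega
    have h2 := (Finset.card_le_card hs).trans (Finset.card_union_le _ _)
    rw [Int.card_Ioc, Int.card_Ioc] at h2
    have h3 : (Finset.Ioc a (a + N) \ Finset.Ioc (0 : ℤ) N).card ≤ a.natAbs := by omega
    have h4 : ((a.natAbs : ℕ) : ℝ) = |(a : ℝ)| := by
      rw [Nat.cast_natAbs, Int.cast_abs]
    rw [← h4]
    exact_mod_cast h3
  have hb : ∀ S : Finset ℤ, ‖∑ k ∈ S, g a r k‖ ≤ S.card := by
    intro S
    refine (norm_sum_le _ _).trans ?_
    simp [g_norm]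
  calc _ ≤ ‖∑ k ∈ Finset.Ioc (0 : ℤ) N \ Finset.Ioc a (a + N), g a r k‖ +
        ‖∑ k ∈ Finset.Ioc a (a + N) \ Finset.Ioc (0 : ℤ) N, g a r k‖ := norm_sub_le _ _
    _ ≤ |(a : ℝ)| + |(a : ℝ)| := add_le_add ((hb _).trans h1) ((hb _).trans h1')
    _ = _ := by ring

/-- the counterexample on the line through `(s, y)` with speed `a` -/
lemma beam_line (N : ℕ) (s y t x : ℝ) (a : ℤ) (h : x - y = -(a * (t - s))) :
    beam (co N s y) 0 t x =
      ∑ k ∈ Finset.Ioc (0 : ℤ) N, g a (t - s) k - ∑ k ∈ Finset.Ioc a (a + N), g a (t - s) k := by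
  rw [← sum_refl]
  unfold beam
  have h0 : co N s y 0 = 0 := by
    unfold co
    simp
  rw [h0]
  simp only [Pi.zero_apply, zero_mul, add_zero, zero_add]
  rw [tsum_eq_sum (s := Finset.Ioc (0 : ℤ) N ∪ Finset.Ico (-(N : ℤ)) 0)]
  · rw [Finset.sum_union (disj N)]
    have hx : x = y - a * (t - s) := by linarith
    have e1 : ∀ k : ℤ, cexp (-(I * ((k : ℝ) ^ 2 * s + k * y : ℝ))) *
        cexp (I * ((k : ℝ) ^ 2 * t : ℝ)) * cexp (I * ((k : ℝ) * x : ℝ)) = g a (t - s) k := by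
      intro k
      unfold g
      rw [← Complex.exp_add, ← Complex.exp_add, hx]
      congr 1
      push_cast
      ring
    rw [sub_eq_add_neg, ← Finset.sum_neg_distrib]
    congr 1
    · apply Finset.sum_congr rfl
      intro k hk
      have hk0 : k ≠ 0 := by
        rw [Finset.mem_Ioc] at hk
        omega
      rw [if_neg hk0]
      unfold co
      rw [if_pos hk]
      exact e1 k
    · apply Finset.sum_congr rfl
      intro k hk
      have hk0 : k ≠ 0 := by
        rw [Finset.mem_Ico] at hk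
        omega
      have hk1 : k ∉ Finset.Ioc (0 : ℤ) N := fun h => Finset.disjoint_left.mp (disj N) h hk
      rw [if_neg hk0]
      unfold co
      rw [if_neg hk1, if_pos hk, ← e1 k]
      ring
  · intro k hk
    rw [Finset.mem_union, not_or] at hk
    unfold co
    rw [if_neg hk.1, if_neg hk.2]
    simp

lemma co_sq (N : ℕ) (s y : ℝ) :
    ∑' k : ℤ, (‖co N s y k‖ ^ 2 + ‖(0 : ℤ → ℂ) k‖ ^ 2) = 2 * N := by
  rw [tsum_eq_sum (s := Finset.Ioc (0 : ℤ) N ∪ Finset.Ico (-(N : ℤ)) 0)]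
  · rw [Finset.sum_union (disj N)]
    have h1 : ∑ k ∈ Finset.Ioc (0 : ℤ) N, (‖co N s y k‖ ^ 2 + ‖(0 : ℤ → ℂ) k‖ ^ 2) = N := by
      rw [Finset.sum_congr rfl (g := fun _ => (1 : ℝ))]
      · simp
      · intro k hk
        unfold co
        rw [if_pos hk, norm_e']
        simp
    have h2 : ∑ k ∈ Finset.Ico (-(N : ℤ)) 0, (‖co N s y k‖ ^ 2 + ‖(0 : ℤ → ℂ) k‖ ^ 2) = N := by
      rw [Finset.sum_congr rfl (g := fun _ => (1 : ℝ))]
      · simp
      · intro k hk
        have hk1 : k ∉ Finset.Ioc (0 : ℤ) N := fun h => Finset.disjoint_left.mp (disj N) h hk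
        unfold co
        rw [if_neg hk1, if_pos hk, norm_neg, norm_e']
        simp
    rw [h1, h2]
    ring
  · intro k hk
    rw [Finset.mem_union, not_or] at hk
    unfold co
    rw [if_neg hk.1, if_neg hk.2]
    simp

/-- **The inverse inequality fails for all integer speeds.** Let `a_1, ..., a_m` be integers and let
the lines `{(t, x) : x = x_i - a_i (t - t_i)}` have a common point `(s, y)` (for instance all
`(t_i, x_i)` equal to `(0,0)`; for two different speeds this is always the case). Then for every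
`T > 0` there is no constant `α` such that
`∑_k (|c_k^+|² + |c_k^-|²) ≤ α ∑_i ∫_0^T |u(t_i + τ, x_i - a_i τ)|² dτ`
for all finitely supported sequences. -/
theorem result (m : ℕ) (a : Fin m → ℤ) (t x : Fin m → ℝ) (s y : ℝ)
    (h : ∀ i, y = x i - a i * (s - t i)) (T : ℝ) (hT : 0 < T) (α : ℝ) :
    ∃ cp cm : ℤ → ℂ, cp.support.Finite ∧ cm.support.Finite ∧
      α * ∑ i, ∫ τ in (0 : ℝ)..T, ‖beam cp cm (t i + τ) (x i - a i * τ)‖ ^ 2 <
        ∑' k : ℤ, (‖cp k‖ ^ 2 + ‖cm k‖ ^ 2) := by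
  set B : ℝ := ∑ i, T * (2 * |(a i : ℝ)|) ^ 2 with hB
  have hB0 : 0 ≤ B := Finset.sum_nonneg fun i _ => by positivity
  obtain ⟨N, hN⟩ := exists_nat_gt (|α| * B)
  refine ⟨co N s y, 0, ?_, by simp, ?_⟩
  · refine Set.Finite.subset (Finset.finite_toSet
      (Finset.Ioc (0 : ℤ) N ∪ Finset.Ico (-(N : ℤ)) 0)) ?_
    intro k hk
    rw [Finset.mem_coe, Finset.mem_union]
    by_contra hcon
    rw [not_or] at hcon
    apply hk
    unfold co
    rw [if_neg hcon.1, if_neg hcon.2]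
  · rw [co_sq]
    have h1 : ∀ i, ∀ τ : ℝ, ‖beam (co N s y) 0 (t i + τ) (x i - a i * τ)‖ ≤ 2 * |(a i : ℝ)| := by
      intro i τ
      have h2 : x i - a i * τ - y = -(a i * (t i + τ - s)) := by
        rw [h i]
        ring
      rw [beam_line N s y (t i + τ) (x i - a i * τ) (a i) h2]
      exact shift_bound _ _ _
    have h2 : ∀ i, ∫ τ in (0 : ℝ)..T, ‖beam (co N s y) 0 (t i + τ) (x i - a i * τ)‖ ^ 2 ≤
        T * (2 * |(a i : ℝ)|) ^ 2 := by
      intro i
      have h3 := intervalIntegral.norm_integral_le_of_norm_le_const (a := 0) (b := T)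
        (C := (2 * |(a i : ℝ)|) ^ 2)
        (f := fun τ => ‖beam (co N s y) 0 (t i + τ) (x i - a i * τ)‖ ^ 2) (by
          intro τ _
          rw [Real.norm_of_nonneg (by positivity)]
          gcongr
          exact h1 i τ)
      rw [sub_zero, abs_of_pos hT] at h3
      refine (le_abs_self _).trans (h3.trans (le_of_eq ?_))
      ring
    have h3 : ∀ i, 0 ≤ ∫ τ in (0 : ℝ)..T, ‖beam (co N s y) 0 (t i + τ) (x i - a i * τ)‖ ^ 2 :=
      fun i => intervalIntegral.integral_nonneg hT.le fun τ _ => by positivity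
    have h4 : ∑ i, ∫ τ in (0 : ℝ)..T, ‖beam (co N s y) 0 (t i + τ) (x i - a i * τ)‖ ^ 2 ≤ B :=
      Finset.sum_le_sum fun i _ => h2 i
    have h5 : 0 ≤ ∑ i, ∫ τ in (0 : ℝ)..T, ‖beam (co N s y) 0 (t i + τ) (x i - a i * τ)‖ ^ 2 :=
      Finset.sum_nonneg fun i _ => h3 i
    have h6 : (0 : ℝ) ≤ N := Nat.cast_nonneg N
    calc α * ∑ i, ∫ τ in (0 : ℝ)..T, ‖beam (co N s y) 0 (t i + τ) (x i - a i * τ)‖ ^ 2
        ≤ |α| * ∑ i, ∫ τ in (0 : ℝ)..T, ‖beam (co N s y) 0 (t i + τ) (x i - a i * τ)‖ ^ 2 := by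
          gcongr
          exact le_abs_self α
      _ ≤ |α| * B := by gcongr
      _ < N := hN
      _ ≤ 2 * N := by linarith

end Pool.Agent.Results.MP_8d8cf3_an.IntegerSpeedsFail
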